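import Pool.Agent.H332.HT.Defs

set_option autoImplicit false

namespace Pool.Agent.H100.HTC1

open Pool.Agent.H332.HT

theorem det_neg_right (a b : V2) : det a (-b) = - det a b := by
  simp only [det, Prod.fst_neg, Prod.snd_neg]; ring

theorem det_swap (a b : V2) : det a b = - det b a := by
  simp only [det]; ring

theorem det_cont (a : V2) : Continuous (fun p : V2 => det a p) := by
  unfold det
  fun_prop

/-- the common part of the two sectors -/
theorem sector (hP : S_P) (hitv : S_itv) (hcone : S_cone) (hinw : S_inw) (h1 : S_KL1)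
    {K : Set V3} (hK : HB K) {a b r : V2} (ha : a ∈ P K) (hb : b ∈ P K) (ha' : a ∉ IP K)
    (hb' : b ∉ IP K) (hab : 0 < det a b) (hm : (1 / 2 : ℝ) • (a - b) ∈ IP K)
    (hr1 : ((r, 1) : V3) ∈ K) (hr2 : ((r, -1) : V3) ∈ K)
    {p : V2} {z : ℝ} (hp : ((p, z) : V3) ∈ K) (h0 : 0 ≤ det a p) (h0' : 0 ≤ det p b)
    {W : ℝ} (hW : 0 < W) (hp0 : p ≠ 0)
    (hv : W • (-(a + b)) = -(det a b • p) + (det a p - det p b) • r) {k e M : ℝ}
    (hz : -1 + e ≤ z) (hWM : W ≤ M) (hk : 0 < k) (hkM : k * M < det a b * e) :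
    ((-(a + b), -k) : V3) ∈ C K (p, z) := by
  have hpP : p ∈ P K := ⟨(p, z), hp, rfl⟩
  have hxi := h1 K hK a b p ha hb ha' hb' hpP hab h0 h0'
  obtain ⟨k₀, hk₀⟩ := hinw K hK a b p z hab hm hp hp0 h0 h0' hxi
  have c1 := (hcone K hK p r (-(a + b)) z 1 W (det a b) (det a p - det p b) hp hr1 hW hxi hv).1
  have c2 := (hcone K hK p r (-(a + b)) z (-1) W (det a b) (det a p - det p b) hp hr2 hW hxi hv).2
  have hz1 := abs_le.mp (hK.ht p z hp)
  refine hitv K hK (p, z) hp (-(a + b)) k₀ _ (-k) _ hk₀ c2 c1 ?_ ?_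
  · rw [div_lt_iff₀ hW]
    have h3 : det a b * e ≤ det a b * (1 + z) := mul_le_mul_of_nonneg_left (by linarith) hab.le
    have h4 : k * W ≤ k * M := mul_le_mul_of_nonneg_left hWM hk.le
    have h5 : |det a p - det p b| * (1 + -1) = 0 := by ring
    rw [h5]
    linarith
  · have h3 : |det a p - det p b| * (1 - 1) = 0 := by ring
    rw [h3]
    have h4 : 0 ≤ (det a b * (1 - z) - 0) / W := by
      apply div_nonneg _ hW.le
      have : 0 ≤ det a b * (1 - z) := mul_nonneg hab.le (by linarith [hz1.2])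
      linarith
    linarith

/-- points on the axis through `x` -/
theorem axis (hP : S_P) (hik : S_IntK) {K : Set V3} (hK : HB K) {x : V2} (hx : Full K x)
    (hx' : x ∉ IP K) {s z : ℝ} (hs0 : 0 ≤ s) (hp : ((s • x, z) : V3) ∈ K) (hz : -1 < z) :
    ((-x, -1) : V3) ∈ C K (s • x, z) := by
  obtain ⟨-, hcv, hneg, h0, hnegI, hIP, hmix⟩ := hP K hK
  have hxP : x ∈ P K := ⟨(x, 1), hx.1, rfl⟩
  have hz1 := abs_le.mp (hK.ht _ z hp)
  have hs1 : s ≤ 1 := by
    by_contra h
    push Not at h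
    have hpP : s • x ∈ P K := ⟨(s • x, z), hp, rfl⟩
    have hspos : 0 < s := by linarith
    have h2 := hmix 0 h0 (s • x) hpP (1 - 1 / s) (by
      rw [sub_pos, div_lt_one hspos]; exact h) (by
      have : 0 ≤ 1 / s := by positivity
      linarith)
    apply hx'
    have h3 : (1 - 1 / s) • (0 : V2) + (1 - (1 - 1 / s)) • s • x = x := by
      rw [smul_zero, zero_add, smul_smul]
      have : (1 - (1 - 1 / s)) * s = 1 := by field_simp; ring
      rw [this, one_smul]
    rw [h3] at h2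
    exact h2
  -- the points `s' x`
  have hI : ∀ s' : ℝ, -1 < s' → s' < 1 → s' • x ∈ IP K := by
    intro s' h1 h2
    rcases le_or_gt 0 s' with h | h
    · have h3 := hmix 0 h0 x hxP (1 - s') (by linarith) (by linarith)
      have h4 : (1 - s') • (0 : V2) + (1 - (1 - s')) • x = s' • x := by
        rw [smul_zero, zero_add]
        congr 1
        ring
      rw [h4] at h3
      exact h3
    · have h3 := hmix 0 h0 (-x) (hneg x hxP) (1 + s') (by linarith) (by linarith)
      have h4 : (1 + s') • (0 : V2) + (1 - (1 + s')) • (-x) = s' • x := by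
        rw [smul_zero, zero_add, smul_neg, ← neg_smul]
        congr 1
        ring
      rw [h4] at h3
      exact h3
  have hpt : ∀ (h : ℝ), ((x, h) : V3) ∈ K → ∀ s' : ℝ, -1 < s' → s' < 1 → ((s' • x, h) : V3) ∈ K := by
    intro h hh s' h1 h2
    have h3 := hK.cvx hh (hK.symm x h hh) (show 0 ≤ (1 + s') / 2 by linarith)
      (show 0 ≤ (1 - s') / 2 by linarith) (by ring)
    have h4 : ((1 + s') / 2) • ((x, h) : V3) + ((1 - s') / 2) • ((-x, h) : V3) = (s' • x, h) := by
      ext <;> simp only [Prod.smul_mk, Prod.mk_add_mk, Prod.fst_add, Prod.snd_add, Prod.smul_fst,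
        Prod.smul_snd, Prod.fst_neg, Prod.snd_neg, smul_eq_mul] <;> ring
    rw [h4] at h3
    exact h3
  set t : ℝ := min (1 / 2) ((z + 1) / 2) with ht
  have ht0 : 0 < t := lt_min (by norm_num) (by linarith)
  have ht1 : t ≤ 1 / 2 := min_le_left _ _
  have ht2 : t ≤ (z + 1) / 2 := min_le_right _ _
  refine ⟨t, ht0, ?_⟩
  have h5 : ((s • x, z) : V3) + t • ((-x, -1) : V3) = ((s - t) • x, z - t) := by
    ext <;> simp only [Prod.smul_mk, Prod.mk_add_mk, Prod.fst_add, Prod.snd_add, Prod.smul_fst,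
        Prod.smul_snd, Prod.fst_neg, Prod.snd_neg, smul_eq_mul] <;> ring
  rw [h5]
  exact hik K hK ((s - t) • x) (-1) (z - t) 1 (hI _ (by linarith) (by linarith))
    (hpt _ hx.2 _ (by linarith) (by linarith)) (hpt _ hx.1 _ (by linarith) (by linarith))
    (by linarith) (by linarith [hz1.2])

theorem c1 (hP : S_P) (hf : S_fib) (hik : S_IntK) (htc : S_TC) (hitv : S_itv) (hsym : S_sym)
    (hcop : S_Cop) (hcone : S_cone) (hinw : S_inw) (h1 : S_KL1) : S_C1 := by
  intro K hK x b hx hx' hb hb' hxb hm1 hm2 u κ hlit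
  obtain ⟨hcP, hcv, hneg, h0, hnegI, hIP, hmix⟩ := hP K hK
  have hxP : x ∈ P K := ⟨(x, 1), hx.1, rfl⟩
  have hx0 : x ≠ 0 := by
    rintro rfl
    exact hx' h0
  -- the points which are not lit by the pair
  have hZ : ∃ e : ℝ, 0 < e ∧ ∀ y ∈ K, ((u, κ) : V3) ∉ C K y → ((-u, κ) : V3) ∉ C K y →
      -1 + e ≤ y.2 := by
    have hopen : ∀ d : V3, IsOpen {y : V3 | d ∈ C K y} := by
      intro d
      have := (hcop K).preimage (show Continuous (fun y : V3 => (y, d)) by fun_prop)
      exact this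
    have hclosed : IsClosed ({y : V3 | ((u, κ) : V3) ∈ C K y}ᶜ ∩ {y : V3 | ((-u, κ) : V3) ∈ C K y}ᶜ) :=
      (hopen _).isClosed_compl.inter (hopen _).isClosed_compl
    have hcomp := hK.cpt.inter_right hclosed
    rcases (K ∩ ({y : V3 | ((u, κ) : V3) ∈ C K y}ᶜ ∩
        {y : V3 | ((-u, κ) : V3) ∈ C K y}ᶜ)).eq_empty_or_nonempty with hem | hne
    · refine ⟨1, one_pos, fun y hy h3 h4 => ?_⟩
      have : y ∈ (K ∩ ({y : V3 | ((u, κ) : V3) ∈ C K y}ᶜ ∩
        {y : V3 | ((-u, κ) : V3) ∈ C K y}ᶜ)) := ⟨hy, h3, h4⟩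
      rw [hem] at this
      exact absurd this (Set.notMem_empty _)
    · obtain ⟨y₀, hy₀, hmin⟩ := hcomp.exists_isMinOn hne (continuous_snd.continuousOn)
      have hy₀2 : -1 < y₀.2 := by
        have h3 := (abs_le.mp (hK.ht y₀.1 y₀.2 hy₀.1)).1
        rcases h3.lt_or_eq with h4 | h4
        · exact h4
        · exfalso
          have h5 : ((y₀.1, -1) : V3) = y₀ := by
            ext <;> simp [h4]
          rcases hlit y₀.1 (by rw [h5]; exact hy₀.1) with h6 | h6
          · rw [h5] at h6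
            exact hy₀.2.1 h6
          · rw [h5] at h6
            exact hy₀.2.2 h6
      refine ⟨y₀.2 + 1, by linarith, fun y hy h3 h4 => ?_⟩
      have := hmin (show y ∈ (K ∩ ({y : V3 | ((u, κ) : V3) ∈ C K y}ᶜ ∩
        {y : V3 | ((-u, κ) : V3) ∈ C K y}ᶜ)) from ⟨hy, h3, h4⟩)
      have h5 : y₀.2 ≤ y.2 := this
      linarith
  obtain ⟨e, he, hZ⟩ := hZ
  -- the bound
  have hM : ∃ M : ℝ, 0 < M ∧ ∀ p ∈ P K, det x p ≤ M := by
    obtain ⟨q, hq, hmax⟩ := hcP.exists_isMaxOn ⟨x, hxP⟩ ((det_cont x).continuousOn)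
    refine ⟨max (det x q) 1, lt_of_lt_of_le one_pos (le_max_right _ _), fun p hp => ?_⟩
    exact (hmax hp).trans (le_max_left _ _)
  obtain ⟨M, hM0, hM⟩ := hM
  set D : ℝ := det x b with hD
  set k : ℝ := D * e / (2 * M) with hk
  have hk0 : 0 < k := by positivity
  have hkM : k * M < D * e := by
    have : k * M = D * e / 2 := by rw [hk]; field_simp
    rw [this]
    have : 0 < D * e := by positivity
    linarith
  have hx1 : ((-x, 1) : V3) ∈ K := hK.symm x 1 hx.1
  have hx2 : ((-x, -1) : V3) ∈ K := hK.symm x (-1) hx.2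
  have hxn : -x ∉ IP K := fun h => hx' (by
    have := hnegI _ h
    rw [neg_neg] at this
    exact this)
  -- the half plane `det x p > 0`
  have hhalf : ∀ (p : V2) (z : ℝ), ((p, z) : V3) ∈ K → -1 + e ≤ z → 0 < det x p →
      ((-(x + b), -k) : V3) ∈ C K (p, z) ∨ ((-(b + -x), -k) : V3) ∈ C K (p, z) := by
    intro p z hp hz hxp
    have hpP : p ∈ P K := ⟨(p, z), hp, rfl⟩
    have hp0 : p ≠ 0 := by
      rintro rfl
      simp [det] at hxp
    rcases le_or_gt 0 (det p b) with h | h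
    · left
      refine sector hP hitv hcone hinw h1 hK hxP hb hx' hb' hxb hm1 hx1 hx2 hp hxp.le h hxp hp0
        ?_ hz (hM p hpP) hk0 hkM
      ext <;> simp only [det, Prod.smul_fst, Prod.smul_snd, Prod.fst_add, Prod.snd_add, Prod.fst_neg,
        Prod.snd_neg, smul_eq_mul] <;> ring
    · right
      have hbx : det b (-x) = D := by
        rw [det_neg_right, det_swap b x, neg_neg]
      have h4 : 0 ≤ det b p := by
        rw [det_swap b p]
        linarith
      have h5 : 0 ≤ det p (-x) := by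
        rw [det_neg_right, det_swap p x, neg_neg]
        exact hxp.le
      refine sector hP hitv hcone hinw h1 hK hb (hneg x hxP) hb' hxn (by rw [hbx]; exact hxb)
        (by
          have : b - -x = x + b := by abel
          rw [this]
          exact hm2) hx1 hx2 hp h4 h5 hxp hp0
        ?_ hz (hM p hpP) hk0 (by rw [hbx]; exact hkM)
      ext <;> simp only [det, Prod.smul_fst, Prod.smul_snd, Prod.fst_add, Prod.snd_add, Prod.fst_neg,
        Prod.snd_neg, smul_eq_mul] <;> ring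
  refine ⟨![(u, κ), (-u, κ), (-(x + b), -k), (-(b + -x), -k), (-(-(x + b)), -k), (-(-(b + -x)), -k),
    (-x, -1), (x, -1)], ?_⟩
  rintro ⟨p, z⟩ hp -
  by_cases hu1 : ((u, κ) : V3) ∈ C K (p, z)
  · exact ⟨0, hu1⟩
  by_cases hu2 : ((-u, κ) : V3) ∈ C K (p, z)
  · exact ⟨1, hu2⟩
  have hz : -1 + e ≤ z := hZ (p, z) hp hu1 hu2
  rcases lt_trichotomy (det x p) 0 with h | h | h
  · -- the other half plane
    have h3 : 0 < det x (-p) := by
      rw [det_neg_right]
      linarith
    rcases hhalf (-p) z (hK.symm p z hp) hz h3 with h4 | h4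
    · have h5 := hsym K hK _ _ _ _ h4
      rw [neg_neg p] at h5
      exact ⟨4, h5⟩
    · have h5 := hsym K hK _ _ _ _ h4
      rw [neg_neg p] at h5
      exact ⟨5, h5⟩
  · -- the axis
    have hs : ∃ s : ℝ, p = s • x := by
      have h3 : x.1 ^ 2 + x.2 ^ 2 ≠ 0 := by
        intro h4
        apply hx0
        have h5 : x.1 = 0 := by nlinarith [sq_nonneg x.1, sq_nonneg x.2]
        have h6 : x.2 = 0 := by nlinarith [sq_nonneg x.1, sq_nonneg x.2]
        exact Prod.ext h5 h6
      refine ⟨(x.1 * p.1 + x.2 * p.2) / (x.1 ^ 2 + x.2 ^ 2), ?_⟩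
      have h4 : x.1 * p.2 - x.2 * p.1 = 0 := h
      refine Prod.ext ?_ ?_
      · simp only [Prod.smul_fst, smul_eq_mul]
        rw [div_mul_eq_mul_div, eq_div_iff h3]
        linear_combination (-x.2) * h4
      · simp only [Prod.smul_snd, smul_eq_mul]
        rw [div_mul_eq_mul_div, eq_div_iff h3]
        linear_combination x.1 * h4
    obtain ⟨s, rfl⟩ := hs
    rcases le_or_gt 0 s with h3 | h3
    · exact ⟨6, axis hP hik hK hx hx' h3 hp (by linarith)⟩
    · have h4 : (-s) • x = -(s • x) := neg_smul s x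
      have h5 := axis hP hik hK hx hx' (show 0 ≤ -s by linarith) (z := z)
        (by rw [h4]; exact hK.symm _ z hp) (by linarith)
      have h6 := hsym K hK _ _ _ _ h5
      rw [neg_neg, h4, neg_neg] at h6
      exact ⟨7, h6⟩
  · rcases hhalf p z hp hz h with h4 | h4
    · exact ⟨2, h4⟩
    · exact ⟨3, h4⟩

end Pool.Agent.H100.HTC1
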